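import Mathlib
import Pool.Agent.Helper59.Andre8

set_option autoImplicit false

open Pool.Agent.Helper59.Andre

namespace Pool.Agent.Results.MP_1f99fc_al.Coarsest

/-- The block of irreducible characters indexed by the functional `lam`: the irreducible
constituents of the function `g ↦ ∑ θ(μ(g-1))`, `μ ∈ U lam U`. -/
def andreBlock {n : ℕ} {F : Type} [Field F] (θ : AddChar F ℂ) (lam : Module.Dual F (NT n F)) :
    Set (UT n F → ℂ) :=
  {ψ | ψ ∈ Irr (UT n F) ∧ ∑ᶠ g, superFun θ lam g * ψ g⁻¹ ≠ 0}

/-- The character partition of the supercharacter theory of André. -/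
def andreX (n : ℕ) (F : Type) [Field F] (θ : AddChar F ℂ) : Set (Set (UT n F → ℂ)) :=
  Set.range (andreBlock (n := n) θ)

/-- `(X₀, K₀)` is coarser than `(X, K)`. -/
def IsCoarser {G : Type} (X₀ : Set (Set (G → ℂ))) (K₀ : Set (Set G)) (X : Set (Set (G → ℂ)))
    (K : Set (Set G)) : Prop :=
  (∀ B ∈ K, ∃ B₀ ∈ K₀, B ⊆ B₀) ∧ (∀ A ∈ X, ∃ A₀ ∈ X₀, A ⊆ A₀)

/-- The supercharacter theory of André of `U_n(F_q)` is the coarsest supercharacter theory that
contains all single-box characters as irreducible characters. -/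
theorem result :
    ∀ n : ℕ, 2 ≤ n → ∀ (F : Type) [Field F] [Finite F] (θ : AddChar F ℂ), θ ≠ 1 →
      IsSCT (andreX n F θ) (andreK n F) ∧
      (∀ lam : Module.Dual F (NT n F), sigma (andreBlock θ lam) = superFun θ lam) ∧
      ContainsBoxes θ (andreX n F θ) ∧
      ∀ (X : Set (Set (UT n F → ℂ))) (K : Set (Set (UT n F))), IsSCT X K → ContainsBoxes θ X →
        IsCoarser (andreX n F θ) (andreK n F) X K := by
  intro n _ F _ _ θ hθ
  haveI : Fintype F := Fintype.ofFinite F
  haveI : Fintype (UT n F) := Fintype.ofFinite _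
  have hblk : ∀ lam : Module.Dual F (NT n F), andreBlock θ lam = blk θ lam := by
    intro lam
    unfold andreBlock blk
    simp only [finsum_eq_sum_of_fintype]
  have hX : andreX n F θ = Helper59.Andre.andreX (n := n) θ := by
    unfold andreX Helper59.Andre.andreX
    congr 1
    funext lam
    exact hblk lam
  refine ⟨?_, ?_, ?_, ?_⟩
  · rw [hX]; exact andre_isSCT hθ
  · intro lam
    rw [hblk]; exact sigma_blk hθ lam
  · rw [hX]; exact andre_boxes hθ
  · intro X K hXK hbox
    refine ⟨coarse_K hθ hXK hbox, ?_⟩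
    rw [hX]
    exact coarse_X hθ hXK hbox

end Pool.Agent.Results.MP_1f99fc_al.Coarsest
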